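import Pool.Agent.X275.GB.LD
import Pool.Agent.X31.M3

/-!
# Weighted level of distribution `N exp (-K (log log N) ^ 2)` for the residues near bilinear values at pairs of integers with missing digits

The values considered are `θ x y + g(x) + h(y)` with ARBITRARY real functions `g`, `h` and a real number `θ` of a suitable
size; `x` and `y` run through integers with missing digits (in two bases; the sets of allowed digits are arbitrary with at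
least TWO elements, so these sets can be as thin as `N ^ ε`), and `(x, y)` through an ARBITRARY dense set `S` of such pairs.
For instance: the residues near the products `x y` of two integers with the decimal digits `0` and `1` only.
For almost all elements `n` of `S`, ALL residues `r > 0` within `log ^ D N` of the value satisfy a weighted inequality of
Bombieri-Vinogradov type, with arbitrary weights `|λ(d)| ≤ (τ(d) log N) ^ T` (for instance `λ(d) = ± μ ^ 2(d) 3 ^ ν(d)`) and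
the level `N exp (-K (log log N) ^ 2)`, far beyond `N ^ {1/2}`; a dual form has the ABSOLUTE VALUES inside of the sum over
the moduli.

The passage from the additive energy to the level of distribution is `Pool.Agent.TH212.EH` (starting files), the minimal
real additive energy of the values is from `Pool.Agent.X31.M1` - `M3` (in this run).

From Mathlib: `ArithmeticFunction.vonMangoldt`: the function `Λ`; `Nat.totient`: Euler's function.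
-/

set_option autoImplicit false

namespace Pool.Agent.Results.MP_188a10_nt.BilinearMissingDigits

open Finset

/-- `E(x; d, r) = ψ(x; d, r) - x / φ(d)`, where `ψ(x; d, r)` is the sum of `Λ(n)` over the `n ≤ x` with
`n ≡ r (mod d)`. -/
noncomputable def E (x d r : ℕ) : ℝ :=
  ∑ n ∈ (Icc 1 x).filter (fun n : ℕ => n ≡ r [MOD d]), ArithmeticFunction.vonMangoldt n - (x : ℝ) / Nat.totient d

/-- `τ(d)`: the number of the divisors of `d`. In particular `τ(d) ^ 2 ≥ 3 ^ ν(d)`, where `ν(d)` is the number of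
the prime factors of `d`. -/
noncomputable def τ (d : ℕ) : ℝ := d.divisors.card

/-- `N / exp (K (log log N) ^ 2)` -/
noncomputable def level (K N : ℕ) : ℝ := N / Real.exp (K * Real.log (Real.log N) ^ 2)

/-- The sum of `λ(d) E(x(d); d, r)` over the `d ≤ Q` coprime to `r`. -/
noncomputable def weighted (lam : ℕ → ℝ) (x : ℕ → ℕ) (Q r : ℕ) : ℝ :=
  ∑ d ∈ (Icc 1 Q).filter (fun d : ℕ => r.Coprime d), lam d * E (x d) d r

/-- the integers `0 ≤ n < b ^ M` whose digit at `b ^ j` in base `b` is in `𝒟 j`, for all `j < M` -/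
def Digits (b : ℕ) (𝒟 : ℕ → Finset ℕ) (M : ℕ) : Finset ℕ :=
  (range (b ^ M)).filter (fun n => ∀ j < M, n / b ^ j % b ∈ 𝒟 j)

/-- The sets `𝒟₁ j`, `𝒟₂ j` of allowed digits in the bases `b₁`, `b₂` have at least two elements; the numbers `M₁`, `M₂` of
digits differ at most by the factor `l`; `|θ| ≤ log ^ D N` and `|θ| b₁ ^ M₁ b₂ ^ M₂ ≥ N / log ^ D N`; `S` is a subset of
the product of the two sets of integers with missing digits with at least `1 / log ^ D N` of its elements, and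
`|θ x y + g(x) + h(y)| ≤ N` on `S`. -/
def Fam (b₁ b₂ l D N M₁ M₂ : ℕ) (𝒟₁ 𝒟₂ : ℕ → Finset ℕ) (θ : ℝ) (g h : ℕ → ℝ) (S : Finset (ℕ × ℕ)) : Prop :=
  (∀ j, 𝒟₁ j ⊆ range b₁ ∧ 2 ≤ (𝒟₁ j).card) ∧ (∀ j, 𝒟₂ j ⊆ range b₂ ∧ 2 ≤ (𝒟₂ j).card) ∧
  M₁ ≤ l * M₂ ∧ M₂ ≤ l * M₁ ∧ |θ| ≤ Real.log N ^ D ∧
  (N : ℝ) / Real.log N ^ D ≤ |θ| * ((b₁ : ℝ) ^ M₁ * (b₂ : ℝ) ^ M₂) ∧
  S ⊆ Digits b₁ 𝒟₁ M₁ ×ˢ Digits b₂ 𝒟₂ M₂ ∧
  ((Digits b₁ 𝒟₁ M₁).card * (Digits b₂ 𝒟₂ M₂).card : ℝ) / Real.log N ^ D ≤ S.card ∧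
  ∀ p ∈ S, |θ * ((p.1 : ℝ) * p.2) + g p.1 + h p.2| ≤ N

lemma dat_of {b₁ b₂ l D N M₁ M₂ : ℕ} {𝒟₁ 𝒟₂ : ℕ → Finset ℕ} {θ : ℝ} {g h : ℕ → ℝ} {S : Finset (ℕ × ℕ)}
    (H : Fam b₁ b₂ l D N M₁ M₂ 𝒟₁ 𝒟₂ θ g h S) :
    Pool.Agent.X31.CT.Dat2 b₁ b₂ l D N M₁ M₂ 𝒟₁ 𝒟₂ θ g h S :=
  ⟨H.1, H.2.1, H.2.2.1, H.2.2.2.1, H.2.2.2.2.1, H.2.2.2.2.2.1, H.2.2.2.2.2.2.1, H.2.2.2.2.2.2.2.1,
    H.2.2.2.2.2.2.2.2⟩

open Classical in
/-- Let `b₁, b₂ ≥ 2`, `l ≥ 1`; the functions `g` and `h` are arbitrary. There is a `K` such that for all sufficiently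
large `N` the following holds for ALL data with `Fam b₁ b₂ l D N M₁ M₂ 𝒟₁ 𝒟₂ θ g h S`.

(1) For arbitrary coefficients `λ(d)` with `|λ(d)| ≤ (τ(d) log N) ^ T` (e.g. `|λ(d)| ≤ 3 ^ ν(d)`, if `T = 2`) all but at
most `#S / log ^ U N` elements `n` of `S` satisfy: for ALL integers `r > 0` with `|r - (θ x y + g(x) + h(y))| ≤ log ^ D N`, ALL
`Q ≤ N / exp (K (log log N) ^ 2)` and ALL `x ≤ B N` the sum of `λ(d) E(x; d, r)` over the `d ≤ Q` coprime to `r` is at most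
`N / log ^ U N` in absolute value.

(2) The same holds for the sums of `λ(d) E(x(d); d, r)`, if `x(d) ≤ B N` is an arbitrary function of the modulus.

(3) Let `|w(n)| ≤ log ^ T N` on `S`, and for the `n ∈ S` with `w(n) ≠ 0` let `r(n) > 0` be an arbitrary integer with
`|r(n) - (θ x y + g(x) + h(y))| ≤ log ^ D N`. Then for arbitrary `x(d) ≤ B N` the sum over ALL `d ≤ N / exp (K (log log N) ^ 2)` of
`τ(d) ^ T` times the ABSOLUTE VALUE of the sum of `w(n) E(x(d); d, r(n))`, over the `n ∈ S` for which `r(n)` is coprime to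
`d`, is at most `#S N / log ^ U N`. -/
theorem result (b₁ b₂ l : ℕ) (hb₁ : 2 ≤ b₁) (hb₂ : 2 ≤ b₂) (hl : 1 ≤ l) (B D T U : ℕ) :
    ∃ K N₀ : ℕ, ∀ N : ℕ, N₀ ≤ N → ∀ (M₁ M₂ : ℕ) (𝒟₁ 𝒟₂ : ℕ → Finset ℕ) (θ : ℝ) (g h : ℕ → ℝ) (S : Finset (ℕ × ℕ)),
      Fam b₁ b₂ l D N M₁ M₂ 𝒟₁ 𝒟₂ θ g h S →
      (∀ lam : ℕ → ℝ, (∀ d, |lam d| ≤ (τ d * Real.log N) ^ T) →
        (∃ Ex : Finset (ℕ × ℕ), (Ex.card : ℝ) ≤ S.card / Real.log N ^ U ∧ ∀ n ∈ S, n ∉ Ex → ∀ r : ℕ, 0 < r →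
          |(r : ℝ) - (θ * ((n.1 : ℝ) * n.2) + g n.1 + h n.2)| ≤ Real.log N ^ D → ∀ Q : ℕ, (Q : ℝ) ≤ level K N → ∀ x : ℕ, x ≤ B * N →
            |weighted lam (fun _ => x) Q r| ≤ N / Real.log N ^ U) ∧
        ∀ x : ℕ → ℕ, (∀ d, x d ≤ B * N) →
        ∃ Ex : Finset (ℕ × ℕ), (Ex.card : ℝ) ≤ S.card / Real.log N ^ U ∧ ∀ n ∈ S, n ∉ Ex → ∀ r : ℕ, 0 < r →
          |(r : ℝ) - (θ * ((n.1 : ℝ) * n.2) + g n.1 + h n.2)| ≤ Real.log N ^ D → ∀ Q : ℕ, (Q : ℝ) ≤ level K N →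
            |weighted lam x Q r| ≤ N / Real.log N ^ U) ∧
      (∀ (r : ℕ × ℕ → ℕ) (w : ℕ × ℕ → ℝ), (∀ n ∈ S, w n ≠ 0 → 0 < r n ∧ |(r n : ℝ) - (θ * ((n.1 : ℝ) * n.2) + g n.1 + h n.2)| ≤ Real.log N ^ D) →
        (∀ n ∈ S, |w n| ≤ Real.log N ^ T) → ∀ x : ℕ → ℕ, (∀ d, x d ≤ B * N) →
        ∑ d ∈ Icc 1 ⌊level K N⌋₊, τ d ^ T *
          |∑ n ∈ S.filter (fun n => (r n).Coprime d), w n * E (x d) d (r n)| ≤ S.card * N / Real.log N ^ U) := by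
  obtain ⟨K, N₀, h0⟩ := Pool.Agent.X275.GB.LD.main (Pool.Agent.X31.Sch_bil hb₁ hb₂ l hl) B D T U
  refine ⟨K, N₀, fun N hN M₁ M₂ 𝒟₁ 𝒟₂ θ g h S hfam => ?_⟩
  exact h0 N hN S _ ⟨M₁, M₂, 𝒟₁, 𝒟₂, θ, g, h, dat_of hfam, fun _ => rfl⟩

end Pool.Agent.Results.MP_188a10_nt.BilinearMissingDigits
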