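import Pool.Agent.X275.GB.LD
import Pool.Agent.X31.S7

/-!
# Weighted level of distribution `N exp (-K (log log N) ^ 2)` for the residues near the values of generalised polynomials

`f(t) = ∑ a_x t ^ x` is an arbitrary finite real combination of arbitrary real powers of `t` whose largest exponent `c` is
positive; the values considered are `k + θ f(n)`, where `n` runs through an ARBITRARY set `S ⊆ {1, ..., Y}` with at least
`Y / log ^ D N` elements (for instance: the primes up to `Y`), and `θ`, `k` are arbitrary real numbers of suitable size.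
For almost all elements `n` of `S`, ALL residues `r > 0` within `log ^ D N` of the value satisfy a weighted inequality of
Bombieri-Vinogradov type, with arbitrary weights `|λ(d)| ≤ (τ(d) log N) ^ T` (for instance `λ(d) = ± μ ^ 2(d) 3 ^ ν(d)`) and
the level `N exp (-K (log log N) ^ 2)`, far beyond `N ^ {1/2}`; a dual form has the ABSOLUTE VALUES inside of the sum over
the moduli.

The passage from the additive energy to the level of distribution is `Pool.Agent.TH212.EH` (starting files), the minimal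
real additive energy of the values is from `Pool.Agent.X31.E1` - `E9`, `S7` (in this run).

From Mathlib: `ArithmeticFunction.vonMangoldt`: the function `Λ`; `Nat.totient`: Euler's function.
-/

set_option autoImplicit false

namespace Pool.Agent.Results.MP_188a10_nt.GeneralisedPolynomials

open Finset

/-- `E(x; d, r) = ψ(x; d, r) - x / φ(d)`, where `ψ(x; d, r)` is the sum of `Λ(n)` over the `n ≤ x` with
`n ≡ r (mod d)`. -/
noncomputable def E (x d r : ℕ) : ℝ :=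
  ∑ n ∈ (Icc 1 x).filter (fun n : ℕ => n ≡ r [MOD d]), ArithmeticFunction.vonMangoldt n - (x : ℝ) / Nat.totient d

/-- `τ(d)`: the number of the divisors of `d`. In particular `τ(d) ^ 2 ≥ 3 ^ ν(d)`, where `ν(d)` is the number of
the prime factors of `d`. -/
noncomputable def τ (d : ℕ) : ℝ := d.divisors.card

/-- `N / exp (K (log log N) ^ 2)` -/
noncomputable def level (K N : ℕ) : ℝ := N / Real.exp (K * Real.log (Real.log N) ^ 2)

/-- The sum of `λ(d) E(x(d); d, r)` over the `d ≤ Q` coprime to `r`. -/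
noncomputable def weighted (lam : ℕ → ℝ) (x : ℕ → ℕ) (Q r : ℕ) : ℝ :=
  ∑ d ∈ (Icc 1 Q).filter (fun d : ℕ => r.Coprime d), lam d * E (x d) d r

/-- the generalised polynomial with the exponents `x ∈ F` and the coefficients `a x` -/
noncomputable def f (F : Finset ℝ) (a : ℝ → ℝ) (t : ℝ) : ℝ := ∑ x ∈ F, a x * t ^ x

/-- `|θ| ≤ log ^ D N` and `|θ| Y ^ c ≥ N / log ^ D N` and `Y ≤ N ^ D`; `S` is a subset of `{1, ..., Y}` with at least
`Y / log ^ D N` elements, and `|k + θ f(n)| ≤ N` on `S`. -/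
def Fam (F : Finset ℝ) (a : ℝ → ℝ) (c : ℝ) (D N Y : ℕ) (θ k : ℝ) (S : Finset ℕ) : Prop :=
  (Y : ℝ) ≤ (N : ℝ) ^ D ∧ |θ| ≤ Real.log N ^ D ∧ (N : ℝ) / Real.log N ^ D ≤ |θ| * (Y : ℝ) ^ c ∧
  S ⊆ Icc 1 Y ∧ (Y : ℝ) / Real.log N ^ D ≤ S.card ∧ ∀ n ∈ S, |k + θ * f F a n| ≤ N

lemma dat_of {F : Finset ℝ} {a : ℝ → ℝ} {c : ℝ} {D N Y : ℕ} {θ k : ℝ} {S : Finset ℕ} (H : Fam F a c D N Y θ k S) :
    Pool.Agent.X31.DatG c D N Y θ k (fun n => Pool.Agent.X31.gp F a n) S :=
  ⟨H.1, H.2.1, H.2.2.1, H.2.2.2.1, H.2.2.2.2.1, H.2.2.2.2.2⟩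

open Classical in
/-- Let `F` be a finite set of real numbers with the maximum `c > 0`, `a c ≠ 0`, and `f(t) = ∑_{x ∈ F} a x * t ^ x`. There is a `K` such that for all sufficiently
large `N` the following holds for ALL data with `Fam F a c D N Y θ k S`.

(1) For arbitrary coefficients `λ(d)` with `|λ(d)| ≤ (τ(d) log N) ^ T` (e.g. `|λ(d)| ≤ 3 ^ ν(d)`, if `T = 2`) all but at
most `#S / log ^ U N` elements `n` of `S` satisfy: for ALL integers `r > 0` with `|r - (k + θ f(n))| ≤ log ^ D N`, ALL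
`Q ≤ N / exp (K (log log N) ^ 2)` and ALL `x ≤ B N` the sum of `λ(d) E(x; d, r)` over the `d ≤ Q` coprime to `r` is at most
`N / log ^ U N` in absolute value.

(2) The same holds for the sums of `λ(d) E(x(d); d, r)`, if `x(d) ≤ B N` is an arbitrary function of the modulus.

(3) Let `|w(n)| ≤ log ^ T N` on `S`, and for the `n ∈ S` with `w(n) ≠ 0` let `r(n) > 0` be an arbitrary integer with
`|r(n) - (k + θ f(n))| ≤ log ^ D N`. Then for arbitrary `x(d) ≤ B N` the sum over ALL `d ≤ N / exp (K (log log N) ^ 2)` of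
`τ(d) ^ T` times the ABSOLUTE VALUE of the sum of `w(n) E(x(d); d, r(n))`, over the `n ∈ S` for which `r(n)` is coprime to
`d`, is at most `#S N / log ^ U N`. -/
theorem result (F : Finset ℝ) (a : ℝ → ℝ) (c : ℝ) (hcF : c ∈ F) (hmax : ∀ x ∈ F, x ≤ c)
    (hac : a c ≠ 0) (hc : 0 < c) (B D T U : ℕ) :
    ∃ K N₀ : ℕ, ∀ N : ℕ, N₀ ≤ N → ∀ (Y : ℕ) (θ k : ℝ) (S : Finset ℕ),
      Fam F a c D N Y θ k S →
      (∀ lam : ℕ → ℝ, (∀ d, |lam d| ≤ (τ d * Real.log N) ^ T) →
        (∃ Ex : Finset (ℕ), (Ex.card : ℝ) ≤ S.card / Real.log N ^ U ∧ ∀ n ∈ S, n ∉ Ex → ∀ r : ℕ, 0 < r →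
          |(r : ℝ) - (k + θ * f F a n)| ≤ Real.log N ^ D → ∀ Q : ℕ, (Q : ℝ) ≤ level K N → ∀ x : ℕ, x ≤ B * N →
            |weighted lam (fun _ => x) Q r| ≤ N / Real.log N ^ U) ∧
        ∀ x : ℕ → ℕ, (∀ d, x d ≤ B * N) →
        ∃ Ex : Finset (ℕ), (Ex.card : ℝ) ≤ S.card / Real.log N ^ U ∧ ∀ n ∈ S, n ∉ Ex → ∀ r : ℕ, 0 < r →
          |(r : ℝ) - (k + θ * f F a n)| ≤ Real.log N ^ D → ∀ Q : ℕ, (Q : ℝ) ≤ level K N →
            |weighted lam x Q r| ≤ N / Real.log N ^ U) ∧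
      (∀ (r : ℕ → ℕ) (w : ℕ → ℝ), (∀ n ∈ S, w n ≠ 0 → 0 < r n ∧ |(r n : ℝ) - (k + θ * f F a n)| ≤ Real.log N ^ D) →
        (∀ n ∈ S, |w n| ≤ Real.log N ^ T) → ∀ x : ℕ → ℕ, (∀ d, x d ≤ B * N) →
        ∑ d ∈ Icc 1 ⌊level K N⌋₊, τ d ^ T *
          |∑ n ∈ S.filter (fun n => (r n).Coprime d), w n * E (x d) d (r n)| ≤ S.card * N / Real.log N ^ U) := by
  obtain ⟨K, N₀, h0⟩ := Pool.Agent.X275.GB.LD.main (Pool.Agent.X31.Sch_gp F a c hcF hmax hac hc) B D T U
  refine ⟨K, N₀, fun N hN Y θ k S hfam => ?_⟩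
  exact h0 N hN S _ ⟨Y, θ, k, dat_of hfam, fun _ => rfl⟩

end Pool.Agent.Results.MP_188a10_nt.GeneralisedPolynomials
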